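import Pool.Agent.H83.UE.Targets4

/-! Module GNR of MP_75a732_an: almost all points are generic over a countable field. -/

set_option autoImplicit false

open Polynomial MeasureTheory Filter Topology Set
open scoped OnePoint ComplexConjugate ComplexOrder Laplacian ENNReal Nat

namespace Pool.Agent.H14.UDB

open Pool.Agent.H83.UE

theorem ae_fin : ∀ (n : ℕ) (p : MvPolynomial (Fin n) ℂ), p ≠ 0 →
    ∀ᵐ x : Fin n → ℂ, MvPolynomial.eval x p ≠ 0 := by
  intro n
  induction n with
  | zero =>
    intro p hp
    refine Eventually.of_forall fun x hx => hp ?_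
    have h1 := MvPolynomial.eq_C_of_isEmpty p
    rw [h1, MvPolynomial.eval_C] at hx
    rw [h1, hx, map_zero]
  | succ n ih =>
    intro p hp
    set f := MvPolynomial.finSuccEquiv ℂ n p with hf
    have hf0 : f ≠ 0 := by
      rw [hf]
      exact (MvPolynomial.finSuccEquiv ℂ n).map_ne_zero_iff.2 hp
    have h1 := ih f.leadingCoeff (Polynomial.leadingCoeff_ne_zero.2 hf0)
    have h2 : ∀ᵐ x : Fin n → ℂ, ∀ᵐ y : ℂ, MvPolynomial.eval (Fin.cons y x : Fin (n + 1) → ℂ) p ≠
        0 := by
      filter_upwards [h1] with x hx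
      have h3 : Polynomial.map (MvPolynomial.eval x) f ≠ 0 := by
        intro h
        apply hx
        have h4 := congrArg (fun q => Polynomial.coeff q f.natDegree) h
        simp only [Polynomial.coeff_map, Polynomial.coeff_zero] at h4
        exact h4
      have h5 : {y : ℂ | MvPolynomial.eval (Fin.cons y x : Fin (n + 1) → ℂ) p = 0}.Finite := by
        refine (Polynomial.rootSet_finite (Polynomial.map (MvPolynomial.eval x) f) ℂ).subset ?_
        intro y hy
        rw [Polynomial.mem_rootSet]
        refine ⟨h3, ?_⟩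
        rw [Polynomial.coe_aeval_eq_eval, ← MvPolynomial.eval_eq_eval_mv_eval']
        exact hy
      rw [ae_iff]
      simp only [ne_eq, not_not]
      exact h5.measure_zero _
    have hm : MeasurableSet {q : ℂ × (Fin n → ℂ) |
        MvPolynomial.eval (Fin.cons q.1 q.2 : Fin (n + 1) → ℂ) p = 0} := by
      have hc : Continuous fun q : ℂ × (Fin n → ℂ) =>
          MvPolynomial.eval (Fin.cons q.1 q.2 : Fin (n + 1) → ℂ) p :=
        (MvPolynomial.continuous_eval p).comp (by fun_prop)
      exact (isClosed_eq hc continuous_const).measurableSet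
    have h3 : ∀ᵐ q : ℂ × (Fin n → ℂ),
        MvPolynomial.eval (Fin.cons q.1 q.2 : Fin (n + 1) → ℂ) p ≠ 0 := by
      have h4 : ∀ᵐ q : (Fin n → ℂ) × ℂ,
          MvPolynomial.eval (Fin.cons q.2 q.1 : Fin (n + 1) → ℂ) p ≠ 0 := by
        refine (Measure.ae_prod_iff_ae_ae ?_).2 h2
        exact (hm.preimage measurable_swap).compl
      exact (Measure.measurePreserving_swap (μ := (volume : Measure ℂ))
        (ν := (volume : Measure (Fin n → ℂ)))).quasiMeasurePreserving.ae h4
    have h4 := (volume_preserving_piFinSuccAbove (fun _ : Fin (n + 1) => ℂ)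
      0).quasiMeasurePreserving.ae h3
    filter_upwards [h4] with x hx
    have h5 : (Fin.cons (x 0) (fun i => x (Fin.succ i)) : Fin (n + 1) → ℂ) = x :=
      Fin.cons_self_tail x
    have h6 : MvPolynomial.eval (Fin.cons (x 0) (fun i => x (Fin.succ i)) :
      Fin (n + 1) → ℂ) p ≠ 0 := hx
    rwa [h5] at h6

theorem ae_fintype {ι : Type} [Fintype ι] (p : MvPolynomial ι ℂ) (hp : p ≠ 0) :
    ∀ᵐ x : ι → ℂ, MvPolynomial.eval x p ≠ 0 := by
  classical
  set e := Fintype.equivFin ι with he
  have h1 : MvPolynomial.rename e p ≠ 0 := by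
    intro h
    exact hp (MvPolynomial.rename_injective e e.injective (h.trans (map_zero _).symm))
  have h2 := (volume_measurePreserving_piCongrLeft (fun _ : Fin (Fintype.card ι) => ℂ)
    e).quasiMeasurePreserving.ae (ae_fin _ _ h1)
  filter_upwards [h2] with x hx
  rw [MvPolynomial.eval_rename] at hx
  have h3 : (MeasurableEquiv.piCongrLeft (fun _ : Fin (Fintype.card ι) => ℂ) e) x ∘ e = x := by
    funext i
    exact Equiv.piCongrLeft_apply_apply (fun _ : Fin (Fintype.card ι) => ℂ) e x i
  rwa [h3] at hx

theorem pf_GNR : T_GNR := by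
  classical
  intro ι _ K hK
  have hKc : Countable K := hK
  have hc : Countable (MvPolynomial ι K) := by
    rw [← Cardinal.mk_le_aleph0_iff]
    refine (MvPolynomial.cardinalMk_le_max (σ := ι) (R := K)).trans ?_
    exact max_le (max_le Cardinal.mk_le_aleph0 Cardinal.mk_le_aleph0) le_rfl
  rw [ae_all_iff]
  intro h
  by_cases h0 : h = 0
  · exact Eventually.of_forall fun ζ h1 => absurd h0 h1
  · have h1 : MvPolynomial.map (algebraMap K ℂ) h ≠ 0 := by
      intro h2
      exact h0 (MvPolynomial.map_injective _ (algebraMap K ℂ).injective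
        (h2.trans (map_zero _).symm))
    filter_upwards [ae_fintype _ h1] with ζ hζ _
    rw [MvPolynomial.aeval_def, ← MvPolynomial.eval_map]
    exact hζ

end Pool.Agent.H14.UDB
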