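import Pool.Agent.H83.UE.Targets4
import Pool.Agent.H65.VG.SMO

/-! Module PRD of MP_75a732_an: the pieces. -/

set_option autoImplicit false

open Polynomial MeasureTheory Filter Topology Set
open scoped OnePoint ComplexConjugate ComplexOrder Laplacian ENNReal Nat

namespace Pool.Agent.H14.UDB

open Pool.Agent.H83.UE

/-- the image of a ball of smaller dimension is a null set -/
theorem null_image {k p m : ℕ} (hp : p < m) (c : Fin p → ℂ) (r : ℝ)
    (ψ : (Fin p → ℂ) → (Fin k → ℂ)) (hψ : DifferentiableOn ℂ ψ (Metric.ball c r)) :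
    Measure.hausdorffMeasure (2 * m : ℝ) (ψ '' Metric.ball c r) = 0 := by
  have hcd : ContDiffOn ℂ ((1 : ℕ) : WithTop ℕ∞) ψ (Metric.ball c r) :=
    Pool.Agent.H65.VG.contDiffOn_nat Metric.isOpen_ball 1 ψ hψ
  have hcd' : ContDiffOn ℝ 1 ψ (Metric.ball c r) := hcd.restrict_scalars ℝ
  have h1 : dimH (ψ '' Metric.ball c r) ≤ dimH (Metric.ball c r) :=
    hcd'.dimH_image_le (convex_ball c r) Subset.rfl
  have h2 : dimH (Metric.ball c r) ≤ ((2 * p : ℕ) : ℝ≥0∞) := by
    refine (dimH_mono (subset_univ _)).trans ?_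
    rw [Real.dimH_univ_eq_finrank]
    have h3 : Module.finrank ℝ (Fin p → ℂ) = 2 * p := by
      rw [Module.finrank_pi_fintype]
      simp [Complex.finrank_real_complex, mul_comm]
    rw [h3]
  have h3 : dimH (ψ '' Metric.ball c r) < (((2 * m : ℕ) : NNReal) : ℝ≥0∞) := by
    refine (h1.trans h2).trans_lt ?_
    rw [ENNReal.coe_natCast]
    exact_mod_cast (by omega : 2 * p < 2 * m)
  have h4 := hausdorffMeasure_of_dimH_lt h3
  have h5 : ((((2 * m : ℕ) : NNReal)) : ℝ) = 2 * m := by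
    push_cast
    rfl
  rw [h5] at h4
  exact h4

theorem cast_piece {k m p : ℕ} (hp : p = m) (c : Fin p → ℂ) (r : ℝ)
    (ψ : (Fin p → ℂ) → (Fin k → ℂ)) (hψ : DifferentiableOn ℂ ψ (Metric.ball c r))
    (hi : InjOn ψ (Metric.ball c r)) :
    ∃ (c' : Fin m → ℂ) (r' : ℝ) (ψ' : (Fin m → ℂ) → (Fin k → ℂ)),
      DifferentiableOn ℂ ψ' (Metric.ball c' r') ∧ InjOn ψ' (Metric.ball c' r') ∧
      ψ '' Metric.ball c r ⊆ ψ' '' Metric.ball c' r' := by
  subst hp
  exact ⟨c, r, ψ, hψ, hi, Subset.rfl⟩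

theorem meas_inter {k m : ℕ} (B : Set (Fin m → ℂ)) (hB : MeasurableSet B)
    (ψ : (Fin m → ℂ) → (Fin k → ℂ)) (hψ : ContinuousOn ψ B) (T : Set (Fin k → ℂ))
    (hT : MeasurableSet T) : MeasurableSet {t ∈ B | ψ t ∈ T} := by
  have h1 : Measurable fun x : B => ψ x := (continuousOn_iff_continuous_domRestrict.1 hψ).measurable
  have h2 := hB.subtype_image (h1 hT)
  have h3 : Subtype.val '' ((fun x : B => ψ x) ⁻¹' T) = {t ∈ B | ψ t ∈ T} := by
    ext t
    constructor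
    · rintro ⟨x, hx, rfl⟩
      exact ⟨x.2, hx⟩
    · rintro ⟨ht, htT⟩
      exact ⟨⟨t, ht⟩, htT, rfl⟩
  rwa [h3] at h2

theorem pf_PRD : T_PRD := by
  classical
  intro k m X hX ⟨n, c, r, ψ, hψ, hcov⟩
  have hex : ∀ a, ∃ (c' : Fin m → ℂ) (r' : ℝ) (ψ' : (Fin m → ℂ) → (Fin k → ℂ)),
      DifferentiableOn ℂ ψ' (Metric.ball c' r') ∧ InjOn ψ' (Metric.ball c' r') ∧
      (n a = m → ψ a '' Metric.ball (c a) (r a) ⊆ ψ' '' Metric.ball c' r') := by
    intro a
    by_cases h : n a = m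
    · obtain ⟨c', r', ψ', h1, h2, h3⟩ := cast_piece h (c a) (r a) (ψ a) (hψ a).2.1 (hψ a).2.2
      exact ⟨c', r', ψ', h1, h2, fun _ => h3⟩
    · refine ⟨0, 0, fun _ => 0, ?_, ?_, fun h1 => absurd h1 h⟩
      · exact differentiableOn_const _
      · rw [Metric.ball_zero]
        exact injOn_empty _
  choose c' r' ψ' hd hi hsub using hex
  set B : ℕ → Set (Fin m → ℂ) := fun a => Metric.ball (c' a) (r' a) with hB
  have hBm : ∀ a, MeasurableSet (ψ' a '' B a) := fun a =>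
    measurableSet_ball.image_of_continuousOn_injOn (hd a).continuousOn (hi a)
  set T : ℕ → Set (Fin k → ℂ) := fun a => X ∩ ⋂ b ∈ Finset.range a, (ψ' b '' B b)ᶜ with hT
  have hTm : ∀ a, MeasurableSet (T a) := by
    intro a
    refine hX.measurableSet.inter ?_
    exact Finset.measurableSet_biInter _ fun b _ => (hBm b).compl
  have hTmem : ∀ a x, x ∈ T a ↔ x ∈ X ∧ ∀ b < a, x ∉ ψ' b '' B b := by
    intro a x
    simp only [hT, mem_inter_iff, mem_iInter, Finset.mem_range, mem_compl_iff]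
  set S : ℕ → Set (Fin m → ℂ) := fun a => {t ∈ B a | ψ' a t ∈ T a} with hS
  refine ⟨c', r', S, ψ', fun a => ⟨?_, fun t ht => ht.1, hd a, (hi a).mono fun t ht => ht.1, ?_⟩,
    ?_, ?_⟩
  · exact meas_inter _ measurableSet_ball _ (hd a).continuousOn _ (hTm a)
  · rintro x ⟨t, ht, rfl⟩
    exact ((hTmem a _).1 ht.2).1
  · have hdis : ∀ a b, b < a → Disjoint (ψ' a '' S a) (ψ' b '' S b) := by
      intro a b hab
      rw [Set.disjoint_left]
      rintro x ⟨t, ht, rfl⟩ ⟨t', ht', htt⟩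
      exact ((hTmem a _).1 ht.2).2 b hab ⟨t', ht'.1, htt⟩
    intro a b hab
    rcases lt_or_gt_of_ne hab with h | h
    · exact (hdis b a h).symm
    · exact hdis a b h
  · have hsub2 : X \ ⋃ a, ψ' a '' S a ⊆
        ⋃ a : {a : ℕ // n a < m}, ψ a '' Metric.ball (c a) (r a) := by
      rintro x ⟨hx, hxS⟩
      have hno : ∀ a, x ∉ ψ' a '' B a := by
        by_contra hcon
        push Not at hcon
        have hfind := Nat.find_spec hcon
        have hmin : ∀ b < Nat.find hcon, x ∉ ψ' b '' B b := fun b hb => Nat.find_min hcon hb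
        obtain ⟨t, ht, htx⟩ := hfind
        apply hxS
        refine mem_iUnion.2 ⟨Nat.find hcon, t, ⟨ht, ?_⟩, htx⟩
        rw [htx]
        exact (hTmem _ _).2 ⟨hx, hmin⟩
      obtain ⟨a, ha⟩ := mem_iUnion.1 (hcov hx)
      have hne : n a ≠ m := fun h => hno a (hsub a h ha)
      exact mem_iUnion.2 ⟨⟨a, lt_of_le_of_ne (hψ a).1 hne⟩, ha⟩
    refine measure_mono_null hsub2 ?_
    rw [measure_iUnion_null_iff]
    intro a
    exact null_image a.2 _ _ _ (hψ a).2.1

end Pool.Agent.H14.UDB
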